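import Pool.Agent.K93.SO.T_AB
import Pool.Agent.K93.SO.T_ALL
import Pool.Agent.K93.SO.T_BIG
import Pool.Agent.K93.SO.T_CNT
import Pool.Agent.K93.SO.T_EXC
import Pool.Agent.K93.SO.T_LCM
import Pool.Agent.K93.SO.T_LEAP
import Pool.Agent.K93.SO.T_PAR
import Pool.Agent.K93.SO.T_REC
import Pool.Agent.K93.SO.T_RES
import Pool.Agent.K93.SO.T_RHO
import Pool.Agent.K93.SO.T_RUN
import Pool.Agent.K93.SO.T_TAUI
import Pool.Agent.K93.SO.T_TOP
import Pool.Agent.K93.SO.T_TPA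
import Pool.Agent.K93.SO.T_WT
import Pool.Agent.K93.SO.T_ZER
import Pool.Agent.K93.SD.T_AB
import Pool.Agent.K93.SD.T_ALL
import Pool.Agent.K93.SD.T_BIG
import Pool.Agent.K93.SD.T_CNT
import Pool.Agent.K93.SD.T_CRT
import Pool.Agent.K93.SD.T_EXC
import Pool.Agent.K93.SD.T_LEAP
import Pool.Agent.K93.SD.T_PAR
import Pool.Agent.K93.SD.T_REC
import Pool.Agent.K93.SD.T_RUN
import Pool.Agent.K93.SD.T_SIV
import Pool.Agent.K93.SD.T_TOP
import Pool.Agent.K93.SD.T_TPA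
import Pool.Agent.K93.SD.T_WT
import Pool.Agent.K93.SD.T_ZER

/-!
# The gcd recursion with `n^p - 1`: few zeros, and slow descents from almost all starting points, for every prime `p`

For every prime `p` the number of zeros of the recursion up to `X` is `O(X exp (-c (log X)^(1/4)))`, for every initial value; and
for all but `O(X exp (-c (log X)^(1/4)))` of the integers `n ≤ X` the recursion started with a zero at `n` has no further zero up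
to `n + exp (c (log X)^(1/4))`.

Proof. A short gap contains a jump at a time `k` by `(k^p - 1) / μ` with a small `μ`. In reversed time from `k` the sum `T` of the
jumps grows from `0` to a power of `k` in few steps, and the jump `g` at the time `k - s` divides `(k - s)^p - 1` and
`μ T + j (k^p - 1)`. The resultant of `x^p - 1` and `μ T + j ((x + s)^p - 1)` is not zero: the jumps are bounded by powers of `T`, and two
of them have a small gcd (for `p = 2` the jump is split as `e f`, `e ∣ k - s - 1`, `f ∣ k - s + 1`). Jumps much larger than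
the present value of `T` are rare (moments of the divisor function). Between two successive jumps of size at least `D` there is
mostly a jump of size at least `D / Y`: otherwise there is a long run of jumps with small sums in between for half of the
neighbours, and such runs are rare (Chinese remainder theorem, and moments of the number of possible jumps in short intervals).
So the number of jumps grows geometrically from level to level.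
-/

set_option autoImplicit false

namespace Pool.Agent.Results.MP_e7655a_nt.FewZerosAllPrimes

open Pool.Agent.K93

lemma finish (p : ℕ)
    (h₁ : ∃ c C : ℝ, 0 < c ∧ 0 < C ∧ ∀ a : ℕ → ℤ,
      (∀ n : ℕ, 2 ≤ n → a n = |a (n - 1) - ((Int.gcd (a (n - 1)) ((n : ℤ) ^ p - 1) : ℕ) : ℤ)|) → ∀ X : ℕ, 2 ≤ X →
        ({n : ℕ | 1 ≤ n ∧ n ≤ X ∧ a n = 0}.ncard : ℝ) ≤ C * X * Real.exp (-(c * Real.log X ^ (1 / 4 : ℝ))))
    (h₂ : ∃ c C : ℝ, 0 < c ∧ 0 < C ∧ ∀ X : ℕ, 2 ≤ X →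
      ({n : ℕ | 1 ≤ n ∧ n ≤ X ∧ ∃ (a : ℕ → ℤ) (n' : ℕ),
        (∀ i : ℕ, n < i → a i = |a (i - 1) - ((Int.gcd (a (i - 1)) ((i : ℤ) ^ p - 1) : ℕ) : ℤ)|) ∧ a n = 0 ∧ n < n' ∧
        (n' : ℝ) ≤ n + Real.exp (c * Real.log X ^ (1 / 4 : ℝ)) ∧ a n' = 0}.ncard : ℝ) ≤
          C * X * Real.exp (-(c * Real.log X ^ (1 / 4 : ℝ)))) :
    ∃ c C : ℝ, 0 < c ∧ 0 < C ∧
      (∀ a : ℕ → ℤ, (∀ n : ℕ, 2 ≤ n → a n = |a (n - 1) - ((Int.gcd (a (n - 1)) ((n : ℤ) ^ p - 1) : ℕ) : ℤ)|) →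
        ∀ X : ℕ, 2 ≤ X → ({n : ℕ | 1 ≤ n ∧ n ≤ X ∧ a n = 0}.ncard : ℝ) ≤
          C * X * Real.exp (-(c * Real.log X ^ (1 / 4 : ℝ)))) ∧
      ∀ X : ℕ, 2 ≤ X →
        ({n : ℕ | 1 ≤ n ∧ n ≤ X ∧ ¬ ∀ a : ℕ → ℤ,
          (∀ i : ℕ, n < i → a i = |a (i - 1) - ((Int.gcd (a (i - 1)) ((i : ℤ) ^ p - 1) : ℕ) : ℤ)|) → a n = 0 →
          ∀ n' : ℕ, n < n' → (n' : ℝ) ≤ n + Real.exp (c * Real.log X ^ (1 / 4 : ℝ)) → a n' ≠ 0}.ncard : ℝ) ≤
          C * X * Real.exp (-(c * Real.log X ^ (1 / 4 : ℝ))) := by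
  obtain ⟨c₁, C₁, hc₁, hC₁, h₁⟩ := h₁
  obtain ⟨c₂, C₂, hc₂, hC₂, h₂⟩ := h₂
  obtain ⟨c, hc⟩ : ∃ c, c = min c₁ c₂ := ⟨_, rfl⟩
  have hcc₁ : c ≤ c₁ := by rw [hc]; exact min_le_left _ _
  have hcc₂ : c ≤ c₂ := by rw [hc]; exact min_le_right _ _
  have hpow : ∀ (X : ℕ), 0 ≤ Real.log X ^ (1 / 4 : ℝ) := fun X => Real.rpow_nonneg (Real.log_natCast_nonneg X) _
  refine ⟨c, max C₁ C₂, by rw [hc]; exact lt_min hc₁ hc₂, lt_max_of_lt_left hC₁, fun a ha X hX => ?_, fun X hX => ?_⟩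
  · refine (h₁ a ha X hX).trans ?_
    have h3 := mul_le_mul_of_nonneg_right hcc₁ (hpow X)
    have h4 : Real.exp (-(c₁ * Real.log X ^ (1 / 4 : ℝ))) ≤ Real.exp (-(c * Real.log X ^ (1 / 4 : ℝ))) :=
      Real.exp_le_exp.2 (by linarith)
    gcongr
    exact le_max_left _ _
  · have h3 := mul_le_mul_of_nonneg_right hcc₂ (hpow X)
    have h4 : Real.exp (-(c₂ * Real.log X ^ (1 / 4 : ℝ))) ≤ Real.exp (-(c * Real.log X ^ (1 / 4 : ℝ))) :=
      Real.exp_le_exp.2 (by linarith)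
    have h5 : Real.exp (c * Real.log X ^ (1 / 4 : ℝ)) ≤ Real.exp (c₂ * Real.log X ^ (1 / 4 : ℝ)) :=
      Real.exp_le_exp.2 h3
    have h6 : ({n : ℕ | 1 ≤ n ∧ n ≤ X ∧ ¬ ∀ a : ℕ → ℤ,
          (∀ i : ℕ, n < i → a i = |a (i - 1) - ((Int.gcd (a (i - 1)) ((i : ℤ) ^ p - 1) : ℕ) : ℤ)|) → a n = 0 →
          ∀ n' : ℕ, n < n' → (n' : ℝ) ≤ n + Real.exp (c * Real.log X ^ (1 / 4 : ℝ)) → a n' ≠ 0}.ncard : ℝ) ≤
        ({n : ℕ | 1 ≤ n ∧ n ≤ X ∧ ∃ (a : ℕ → ℤ) (n' : ℕ),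
          (∀ i : ℕ, n < i → a i = |a (i - 1) - ((Int.gcd (a (i - 1)) ((i : ℤ) ^ p - 1) : ℕ) : ℤ)|) ∧ a n = 0 ∧ n < n' ∧
          (n' : ℝ) ≤ n + Real.exp (c₂ * Real.log X ^ (1 / 4 : ℝ)) ∧ a n' = 0}.ncard : ℝ) := by
      refine Nat.cast_le.2 (Set.ncard_le_ncard ?_ ((Set.finite_Icc 1 X).subset fun n hn => ⟨hn.1, hn.2.1⟩))
      rintro n ⟨g1, g2, g3⟩
      refine ⟨g1, g2, ?_⟩
      push Not at g3
      obtain ⟨a, g4, g5, n', g6, g7, g8⟩ := g3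
      exact ⟨a, n', g4, g5, g6, g7.trans (by linarith), g8⟩
    refine (h6.trans (h₂ X hX)).trans ?_
    gcongr
    exact le_max_right _ _

/-- For every prime `p` there are `c, C > 0` such that for all `X ≥ 2`:
(1) every sequence with `a n = |a (n-1) - gcd (a (n-1), n^p - 1)|` for all `n ≥ 2` (any initial value `a 1`; for `a 1 = 1` this is `a_p`)
has at most `C X exp (-c (log X)^(1/4))` zeros `n ≤ X`;
(2) for all but `C X exp (-c (log X)^(1/4))` of the `n ≤ X`, every sequence with `a n = 0` which satisfies the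
recursion after `n` has no zero `n'` with `n < n' ≤ n + exp (c (log X)^(1/4))`. -/
theorem result : ∀ p : ℕ, p.Prime →
    ∃ c C : ℝ, 0 < c ∧ 0 < C ∧
      (∀ a : ℕ → ℤ, (∀ n : ℕ, 2 ≤ n → a n = |a (n - 1) - ((Int.gcd (a (n - 1)) ((n : ℤ) ^ p - 1) : ℕ) : ℤ)|) →
        ∀ X : ℕ, 2 ≤ X → ({n : ℕ | 1 ≤ n ∧ n ≤ X ∧ a n = 0}.ncard : ℝ) ≤
          C * X * Real.exp (-(c * Real.log X ^ (1 / 4 : ℝ)))) ∧
      ∀ X : ℕ, 2 ≤ X →
        ({n : ℕ | 1 ≤ n ∧ n ≤ X ∧ ¬ ∀ a : ℕ → ℤ,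
          (∀ i : ℕ, n < i → a i = |a (i - 1) - ((Int.gcd (a (i - 1)) ((i : ℤ) ^ p - 1) : ℕ) : ℤ)|) → a n = 0 →
          ∀ n' : ℕ, n < n' → (n' : ℝ) ≤ n + Real.exp (c * Real.log X ^ (1 / 4 : ℝ)) → a n' ≠ 0}.ncard : ℝ) ≤
          C * X * Real.exp (-(c * Real.log X ^ (1 / 4 : ℝ))) := by
  intro p hp
  rcases Nat.lt_or_ge p 3 with h | h
  · have hp2 := hp.two_le
    obtain rfl : p = 2 := by omega
    have hCRT : SD.S_CRT := SD.t_CRT
    have hAB : SD.S_AB := SD.t_AB SD.t_SIV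
    have hCNT : SD.S_CNT := SD.t_CNT hCRT (SD.t_WT hAB)
    have hEXC : SD.S_EXC := SD.t_EXC (SD.t_LEAP hAB hCRT) hCNT SD.t_BIG SD.t_RUN SD.t_PAR
    exact finish 2 (SD.t_TOP (SD.t_ZER SD.t_REC hEXC)) (SD.t_TPA (SD.t_ALL SD.t_REC hEXC))
  · have hCRT : SD.S_CRT := SD.t_CRT
    have hAB : SO.S_AB := SO.t_AB SO.t_RES SO.t_RHO SO.t_TAUI SO.t_LCM
    have hCNT : SO.S_CNT := SO.t_CNT SO.t_RES hCRT (SO.t_WT hAB)
    have hEXC : SO.S_EXC := SO.t_EXC (SO.t_LEAP SO.t_RES hAB hCRT) hCNT SO.t_BIG (SO.t_RUN SO.t_RES) SO.t_PAR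
    have hREC : SO.S_REC := SO.t_REC SO.t_RES
    exact finish p (SO.t_TOP (SO.t_ZER hREC hEXC) p hp h) (SO.t_TPA (SO.t_ALL hREC hEXC) p hp h)

end Pool.Agent.Results.MP_e7655a_nt.FewZerosAllPrimes
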